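import Pool.Agent.U863.CS.Fin

/-!
# Groups acting on trees with commensurable stabilizers

`C` is any class of groups with the closure properties `ClosedE C`: it contains `ℤ`, it is closed
under subgroups, finite products, free products, overgroups of finite index and directed colimits, and
it satisfies the extension criterion. We suppose that `C` contains the metabelian groups and the groups
`GL_m(ℚ)`. All this is known for the class of the groups whose wreath products with finite groups
satisfy the K-theoretic Farrell–Jones conjecture with coefficients in additive categories (Wegner for the solvable
groups, Rüping for `GL_m(ℚ)`).

`PR n A`: the group `A` has a finite series with finite factors and at most `n` factors which embed in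
the additive group of the rational numbers; for instance `A` may be virtually polycyclic (`VPC`), or a
solvable Baumslag–Solitar group, or any virtually torsion-free solvable group of finite Hirsch length.

Theorem. Let `G` act on a tree and let `N` be a normal subgroup of `G` with `G ⧸ N` in `C` (for
instance `N = G`). If the stabilizers in `N` of adjacent vertices are commensurable and the
stabilizer in `N` of some vertex satisfies `PR n` for some `n`, then `G` is in `C`.

So the fundamental groups of all (also infinite) graphs of groups in which the vertex groups and edge
groups are virtually polycyclic and the edge groups are of finite index in the vertex groups are in
`C`; by Mosher, Sageev and Whyte this class is invariant under quasi-isometries in important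
cases. For infinite cyclic vertex groups these are the generalized Baumslag–Solitar groups; the case of
abelian vertex groups was treated by Gandini, Meinert and Rüping, and the starting library treats the
virtually polycyclic stabilizers which meet the commutator subgroup of their virtual centre trivially,
for instance the torsion-free ones (`MP_b6f35e_al.IsolatedEdgeGroups`, by the rational hulls of `N77.CP`).
New are the groups with torsion, where for instance the finite radicals of the vertex groups may
change from vertex to vertex, the vertex groups which are not virtually polycyclic, like the solvable
Baumslag–Solitar groups, and the version relative to a normal subgroup. There is no bound on the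
torsion, and no condition on the commensurations given by the edges.

Outline of the proof. One may suppose that `G` is finitely generated and has finitely many orbits on
the tree. A stable character is a homogeneous function on `G` which is additive on a subgroup of finite
index of each stabilizer `N_v` (and vanishes where it has to). The stable characters form a
finite-dimensional vector space over `ℚ` on which `G` acts. If `K` is the kernel of the action of `N`,
then `K_v` has finite index in `N_v`, and by the transfer the stable characters are homomorphisms on
`K_v`; as they agree on the intersections, they extend to the group `H` generated by all `K_v`. Let
`N'` be the intersection of the kernels of all homomorphisms from `H` to `ℚ`. Then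
`G ⧸ N'` is in `C`: the group `K / H` acts freely on a tree and `H / N'` is abelian; and `N'_v` has
smaller rank than `N_v`. After finitely many steps the stabilizers `N_v` are finite of bounded
order `≤ n`. Then free actions of the `N_v` on a set with `n!` elements can be chosen compatibly along
the tree, which gives a homomorphism from the group `H` generated by the `N_v` to a symmetric group,
injective on all `N_v`; the intersection `F` of the kernels of all such homomorphisms is
normal in `G`, the quotient `H / F` is locally finite, `F` acts freely on the tree, and `G` is
in `C`.
-/

set_option autoImplicit false

namespace Pool.Agent.Results.MP_5d3e93_al.CommensurableStabilizers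

open Pool.Agent.Y110.FJ Pool.Agent.U863.CS

/-- virtually polycyclic groups satisfy the condition on the stabilizers -/
theorem vpc (A : Type) [Group A] (h : VPC A) : ∃ n, PR n A :=
  h.pr

theorem result (C : ∀ (G : Type) [Group G], Prop) (hC : ClosedE C)
    (hM : ∀ (G : Type) [Group G], derivedSeries G 2 = ⊥ → C G)
    (hGL : ∀ m : ℕ, C (GL (Fin m) ℚ)) (G V : Type) [Group G] [MulAction G V] (T : SimpleGraph V)
    (hT : T.IsTree) (hact : ∀ (g : G) (u v : V), T.Adj u v → T.Adj (g • u) (g • v))
    (N : Subgroup G) [N.Normal] (hQ : C (G ⧸ N))
    (hadj : ∀ u v : V, T.Adj u v →
      (MulAction.stabilizer G u ⊓ N).relIndex (MulAction.stabilizer G v ⊓ N) ≠ 0)
    (hv : ∃ (v : V) (n : ℕ), PR n ↥(MulAction.stabilizer G v ⊓ N)) : C G := by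
  obtain ⟨v, n, hv⟩ := hv
  have hcom := com_of_adj hT N hadj
  exact main hC hM hGL hT hact N hQ hcom fun u => ⟨n, PR.of_rel (hcom v u) hv⟩

end Pool.Agent.Results.MP_5d3e93_al.CommensurableStabilizers
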