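import Pool.Agent.U731.SG.FibS
import Pool.Agent.N510.CT.KOne

set_option autoImplicit false
set_option linter.unusedSectionVars false
set_option linter.style.haveILetI false

/-! Matrices and complexes over `RE` which are controlled over a quotient `G` of `E` by a hermitian
complex matrix with spectrum in an interval of length at most `3 √2`.

Let `φ : E → G` be a surjective homomorphism of groups with kernel `N` and `R` a ring (the free modules
over `RE` are the category of the free `RN`-modules with its `G`-action, crossed with `G`). If the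
boundary operator of a contractible based complex over `RE` is controlled in this way (bound included),
then the complex is a sum of contractible complexes over subgroups of `E` with virtually cyclic image in
`G`, and its torsion comes from such subgroups; the images are finite if the length is less than `4`. The
same holds for square matrices over `RE`. For every larger bound every class in `K_1(RG)` is the torsion
of a complex of this kind, already for `E = G`. -/

namespace Pool.Agent.Results.MP_5d3e93_al.ControlledSpan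

open ComplexConjugate Matrix TH6.PF TH6.CX TH6.CR TH6.FB

/-- The values of `⟨xS, x⟩` on the unit vectors `x` of `ℓ²(G)^κ` with finite support `T` lie in an
interval `[a, a + s]`; for hermitian `S` this says that the spectrum of right multiplication by `S`
lies in it. -/
def SpanLE {G : Type} [Group G] {κ : Type} (S : Matrix κ κ (MonoidAlgebra ℂ G)) (s : ℝ) : Prop :=
  ∃ a : ℝ, ∀ (T : Finset (κ × G)) (x : κ × G → ℂ),
    a * ∑ p ∈ T, ‖x p‖ ^ 2
      ≤ (∑ p ∈ T, ∑ q ∈ T, x p * (S p.1 q.1).coeff (p.2⁻¹ * q.2) * conj (x q)).re ∧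
    (∑ p ∈ T, ∑ q ∈ T, x p * (S p.1 q.1).coeff (p.2⁻¹ * q.2) * conj (x q)).re
      ≤ (a + s) * ∑ p ∈ T, ‖x p‖ ^ 2

/-- The support of `M` lies, over `G` and apart from the identity of `G` on the diagonal, in the support
of a hermitian complex matrix `S` whose nonzero coefficients, except those of the identity on the
diagonal, have absolute value at least one, and whose spectrum lies in an interval of length `s`. -/
def ControlSpanLE {R : Type} [Ring R] {E G : Type} [Group E] [Group G] (φ : E →* G) {κ : Type}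
    (M : Matrix κ κ (MonoidAlgebra R E)) (s : ℝ) : Prop :=
  ∃ S : Matrix κ κ (MonoidAlgebra ℂ G),
    (∀ i j g, (S j i).coeff g⁻¹ = conj ((S i j).coeff g)) ∧
    (∀ i j g, (S i j).coeff g ≠ 0 → (i = j ∧ g = 1) ∨ 1 ≤ ‖(S i j).coeff g‖) ∧
    (∀ i j e, (M i j).coeff e ≠ 0 → (i = j ∧ φ e = 1) ∨ (S i j).coeff (φ e) ≠ 0) ∧ SpanLE S s

/-- The image of `C` in `G` is virtually cyclic, and finite if `s < 4`. -/
def SmallImage {E G : Type} [Group E] [Group G] (φ : E →* G) (s : ℝ) (C : Subgroup E) : Prop :=
  (∃ z : C.map φ, (Subgroup.zpowers z).FiniteIndex) ∧ (s < 4 → Finite (C.map φ))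

/-- `M` is a product of invertible matrices over group rings `RC` of subgroups `C` of `E` with
virtually cyclic image in `G`. -/
def FromVCImage (R : Type) [Ring R] {E G : Type} [Group E] [Group G] (φ : E →* G) {κ : Type}
    [Fintype κ] [DecidableEq κ] (M : Matrix κ κ (MonoidAlgebra R E)) : Prop :=
  ∃ T : (Matrix κ κ (MonoidAlgebra R E))ˣ, T.val = M ∧
    T ∈ Subgroup.closure {x : (Matrix κ κ (MonoidAlgebra R E))ˣ |
      ∃ (C : Subgroup E) (y : (Matrix κ κ (MonoidAlgebra R C))ˣ),
        (∃ z : C.map φ, (Subgroup.zpowers z).FiniteIndex) ∧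
        x.val = y.val.map (MonoidAlgebra.mapDomain C.subtype)}

/-- For some `m` and some `C` in the commutator subgroup, `diag(U, 1_m) * C` is the torsion matrix of
a based complex over `RG` with boundary operator `d` and contraction `t`, where `d` is controlled by a
hermitian matrix of span at most `s`. -/
def IsTorsion {R : Type} [Ring R] {G : Type} [Group G] {n : ℕ}
    (U : (Matrix (Fin n) (Fin n) (MonoidAlgebra R G))ˣ) (s : ℝ) : Prop :=
  ∃ (m : ℕ) (C : (Matrix (Fin n ⊕ Fin m) (Fin n ⊕ Fin m) (MonoidAlgebra R G))ˣ)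
    (ι : Type) (_ : Fintype ι) (_ : DecidableEq ι) (deg : ι → ℤ)
    (d t : Matrix ι ι (MonoidAlgebra R G))
    (e : {i // Odd (deg i)} ≃ {i // Even (deg i)}) (f : Fin n ⊕ Fin m ≃ {i // Odd (deg i)}),
    C ∈ commutator (Matrix (Fin n ⊕ Fin m) (Fin n ⊕ Fin m) (MonoidAlgebra R G))ˣ ∧
    IsBd deg d ∧ IsCt deg d t ∧ ControlSpanLE (MonoidHom.id G) d s ∧
    (torMatrix deg d t e).submatrix f f = fromBlocks U.val 0 0 1 * C.val

theorem corner {R : Type} [Ring R] {G : Type} [Group G] {κ : Type} [Fintype κ] [DecidableEq κ]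
    (X : Matrix κ κ (MonoidAlgebra R G)) (c : ℝ) (hc : 0 < c) (hX : TH57.Thr.NormLE (pat X) c) :
    ControlSpanLE (MonoidHom.id G) (fromBlocks 0 X 0 0) (2 * c) := by
  classical
  set P := pat X with hP
  let Q : Matrix (κ ⊕ κ) (κ ⊕ κ) (MonoidAlgebra ℤ G) := fromBlocks 0 P 0 0
    + TH6.LF.adj (fromBlocks 0 P 0 0)
  have hQe : Q = fromBlocks 0 P (TH6.LF.adj P) 0 := by
    ext i j h
    change ((fromBlocks 0 P 0 0 : Matrix (κ ⊕ κ) (κ ⊕ κ) (MonoidAlgebra ℤ G)) i j
      + TH6.LF.adj (fromBlocks 0 P 0 0) i j).coeff h = _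
    rw [MonoidAlgebra.coeff_add, Finsupp.add_apply, TH6.LF.coeff_adj]
    rcases i with i | i <;> rcases j with j | j <;> simp [TH6.LF.coeff_adj]
  have hN : TH57.Thr.NormLE Q c := by
    refine TH6.CX.norm_sym _ ?_ c hc (U731.SG.normLE_corner P c hX)
    rw [Matrix.fromBlocks_multiply]
    simp
  have hsp := U731.SP.span_of_norm Q c hc hN
  refine ⟨U731.SG.cxM Q, ?_, ?_, ?_, U731.SG.spanK_of_int Q _ hsp⟩
  · intro i j h
    rw [U731.SG.cxM_coeff, U731.SG.cxM_coeff]
    have h1 : (Q j i).coeff h⁻¹ = (Q i j).coeff h := by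
      change ((fromBlocks 0 P 0 0 : Matrix (κ ⊕ κ) (κ ⊕ κ) (MonoidAlgebra ℤ G)) j i
        + TH6.LF.adj (fromBlocks 0 P 0 0) j i).coeff h⁻¹ =
        ((fromBlocks 0 P 0 0 : Matrix (κ ⊕ κ) (κ ⊕ κ) (MonoidAlgebra ℤ G)) i j
        + TH6.LF.adj (fromBlocks 0 P 0 0) i j).coeff h
      rw [MonoidAlgebra.coeff_add, Finsupp.add_apply, TH6.LF.coeff_adj, MonoidAlgebra.coeff_add,
        Finsupp.add_apply, TH6.LF.coeff_adj, inv_inv, add_comm]
    rw [h1]
    simp
  · intro i j h hne
    right
    rw [U731.SG.cxM_coeff] at hne ⊢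
    have h1 : (Q i j).coeff h ≠ 0 := by exact_mod_cast hne
    have h2 : (1 : ℤ) ≤ |(Q i j).coeff h| := Int.one_le_abs h1
    rw [Complex.norm_intCast]
    exact_mod_cast h2
  · intro i j h hne
    right
    rw [U731.SG.cxM_coeff, hQe]
    rcases i with i | i <;> rcases j with j | j
    · exact absurd rfl hne
    · have h1 := (pat_ne X i j h).2 hne
      exact_mod_cast h1
    · exact absurd rfl hne
    · exact absurd rfl hne

/-- Let `φ : E → G` be a surjective homomorphism of groups and `R` a ring.
1. Let `d` be the boundary operator of a based complex over `RE` with contraction `t`, controlled over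
`G` by a hermitian complex matrix of span `s ≤ 3 √2`. Then the complex is, after a change of basis by
elements of `E`, a sum of contractible complexes over the group rings of subgroups of `E` whose images in
`G` are virtually cyclic, and finite if `s < 4`; and for every bijection `e` from the basis elements of
odd degree to those of even degree the matrix of `d + t` from the odd to the even part (the torsion) is a
product of invertible matrices over group rings of subgroups with virtually cyclic image in `G`.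
2. Let `M` be a square matrix over `RE` controlled in this way. Then `D M D⁻¹` is for a diagonal matrix
`D` of elements of `E` a block sum of matrices over group rings of such subgroups, and if `M` is
invertible, it is a product of invertible matrices over such rings.
3. If `s > 3 √2` then every invertible matrix over every group ring `RG` is, after stabilisation and up
to a factor in the commutator subgroup, the torsion matrix of a complex over `RG` whose boundary operator
is controlled over `G` by a hermitian complex matrix of span at most `s`. -/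
theorem result :
    (∀ (R : Type) [Ring R] (E G : Type) [Group E] [Group G] (φ : E →* G), Function.Surjective φ →
      ∀ s : ℝ, s ^ 2 ≤ 18 →
      (∀ (ι : Type) [Fintype ι] [DecidableEq ι] (deg : ι → ℤ)
        (d t : Matrix ι ι (MonoidAlgebra R E)), IsBd deg d → IsCt deg d t → ControlSpanLE φ d s →
        (∃ (ρ : ι → ι) (u : ι → E) (C : ι → Subgroup E) (t' : Matrix ι ι (MonoidAlgebra R E)),
          (∀ a, SmallImage φ s (C a)) ∧
          InBlocks ρ C ((dmU R u).val * d * (dmU R u)⁻¹.val) ∧
          IsCt deg ((dmU R u).val * d * (dmU R u)⁻¹.val) t' ∧ InBlocks ρ C t') ∧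
        ∀ (e : {i // Odd (deg i)} ≃ {i // Even (deg i)}),
          FromVCImage R φ (torMatrix deg d t e)) ∧
      ∀ (n : ℕ) (M : Matrix (Fin n) (Fin n) (MonoidAlgebra R E)), ControlSpanLE φ M s →
        (∃ (ρ : Fin n → Fin n) (u : Fin n → E) (C : Fin n → Subgroup E),
          (∀ a, SmallImage φ s (C a)) ∧
          InBlocks ρ C ((dmU R u).val * M * (dmU R u)⁻¹.val)) ∧
        (IsUnit M → FromVCImage R φ M)) ∧
    ∀ (R : Type) [Ring R] [Nontrivial R] (G : Type) [Group G] (s : ℝ), 0 < s → 18 < s ^ 2 →
      ∀ (n : ℕ) (U : (Matrix (Fin n) (Fin n) (MonoidAlgebra R G))ˣ), IsTorsion U s := by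
  classical
  refine ⟨fun R _ E G _ _ φ hφ s hs => ⟨?_, ?_⟩, ?_⟩
  · intro ι _ _ deg d t hd ht hsp
    obtain ⟨ρ, u, C, hC, hst⟩ := U731.SG.ctrlSpan_struct φ hφ s hs d hsp
    obtain ⟨t', h1, h2⟩ := TH6.FB.U731.split_struct deg d t ht ρ u C hst
    refine ⟨⟨ρ, u, C, t', hC, hst, h1, h2⟩, fun e => ?_⟩
    obtain ⟨x, hx, _⟩ := tor_unit hd ht e
    exact ⟨x, by rw [hx]; rfl,
      TH6.FB.U731.F_struct φ deg d t hd ht ρ u C (fun b => (hC b).1) hst e x hx⟩
  · intro n M hsp
    obtain ⟨ρ, u, C, hC, hst⟩ := U731.SG.ctrlSpan_struct φ hφ s hs M hsp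
    refine ⟨⟨ρ, u, C, hC, hst⟩, ?_⟩
    rintro ⟨B, rfl⟩
    exact ⟨B, rfl, TH6.FB.U731.F_matrix φ B ρ u C (fun b => (hC b).1) hst⟩
  · intro R _ _ G _ s hs0 hs n U
    have hS : N510.LT.Gens (Set.univ : Set R) :=
      ⟨Set.mem_univ _, fun _ _ => Set.mem_univ _, by simp⟩
    obtain ⟨m, C, hC, -, hX⟩ := N510.CT.sthin_red_fin hS U (s / 2) (by rw [div_pow]; linarith)
    set X : Matrix (Fin n ⊕ Fin m) (Fin n ⊕ Fin m) (MonoidAlgebra R G) :=
      fromBlocks U.val 0 0 1 * C.val with hXd
    set Y : Matrix (Fin n ⊕ Fin m) (Fin n ⊕ Fin m) (MonoidAlgebra R G) :=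
      C⁻¹.val * fromBlocks U⁻¹.val 0 0 1 with hYd
    have hXY : X * Y = 1 := by
      rw [hXd, hYd, Matrix.mul_assoc, ← Matrix.mul_assoc C.val, ← Units.val_mul, mul_inv_cancel,
        Units.val_one, Matrix.one_mul, fromBlocks_multiply]
      simp [← Units.val_mul]
    have hYX : Y * X = 1 := by
      rw [hXd, hYd, Matrix.mul_assoc, ← Matrix.mul_assoc (fromBlocks U⁻¹.val 0 0 1),
        fromBlocks_multiply]
      simp [← Units.val_mul]
    set deg : (Fin n ⊕ Fin m) ⊕ (Fin n ⊕ Fin m) → ℤ := Sum.elim (fun _ => 1) (fun _ => 0) with hdeg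
    have hodd : ∀ i, Odd (deg i) ↔ i.isLeft := by
      rintro (i | i) <;> simp [hdeg]
    have heven : ∀ i, Even (deg i) ↔ i.isRight := by
      rintro (i | i) <;> simp [hdeg]
    let f : Fin n ⊕ Fin m ≃ {i // Odd (deg i)} :=
      { toFun := fun i => ⟨Sum.inl i, by simp [hdeg]⟩
        invFun := fun i => i.1.getLeft ((hodd _).1 i.2)
        left_inv := fun i => rfl
        right_inv := by
          rintro ⟨i | i, hi⟩
          · rfl
          · exact absurd ((hodd _).1 hi) (by simp) }
    let f' : Fin n ⊕ Fin m ≃ {i // Even (deg i)} :=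
      { toFun := fun i => ⟨Sum.inr i, by simp [hdeg]⟩
        invFun := fun i => i.1.getRight ((heven _).1 i.2)
        left_inv := fun i => rfl
        right_inv := by
          rintro ⟨i | i, hi⟩
          · exact absurd ((heven _).1 hi) (by simp)
          · rfl }
    have hctl : ControlSpanLE (MonoidHom.id G)
        (fromBlocks 0 X 0 0 : Matrix ((Fin n ⊕ Fin m) ⊕ (Fin n ⊕ Fin m))
          ((Fin n ⊕ Fin m) ⊕ (Fin n ⊕ Fin m)) (MonoidAlgebra R G)) s := by
      have h1 := corner X (s / 2) (by positivity) hX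
      rwa [mul_div_cancel₀ s two_ne_zero] at h1
    refine ⟨m, C, (Fin n ⊕ Fin m) ⊕ (Fin n ⊕ Fin m), inferInstance, inferInstance, deg,
      fromBlocks 0 X 0 0, fromBlocks 0 0 Y 0, f.symm.trans f', f, hC,
      ⟨?_, ?_⟩, ⟨?_, ?_⟩, hctl, ?_⟩
    · rintro (i | i) (j | j) h
      · exact absurd rfl h
      · simp [hdeg]
      · exact absurd rfl h
      · exact absurd rfl h
    · rw [fromBlocks_multiply]; simp
    · rintro (i | i) (j | j) h
      · exact absurd rfl h
      · exact absurd rfl h
      · simp [hdeg]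
      · exact absurd rfl h
    · rw [fromBlocks_multiply, fromBlocks_multiply, hXY, hYX, fromBlocks_add]
      simp
    · ext1 i j
      change X i j + 0 = X i j
      rw [add_zero]

end Pool.Agent.Results.MP_5d3e93_al.ControlledSpan
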