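import Pool.Agent.U74.DS.Main

/-!
# The automorphism groups of the surfaces `x y = P(z)` are Farrell–Jones groups

`C` is any class of groups with the closure properties `ClosedE C` and `AcylF C` which contains the
solvable groups. All this is published for the class of the groups whose wreath products with finite
groups satisfy the K-theoretic (and L-theoretic) Farrell-Jones conjecture with coefficients in additive
categories (`AcylF` is a theorem of Knopf, solvable groups are due to Wegner).

For a field `K` and a polynomial `P` over `K`, `surfaceGroup P` is the group of automorphisms of the
coordinate ring `K[x, y, z] / (x y - P(z))` of the Danielewski surface generated by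

* the linear automorphisms: `z ↦ m z + n`, and `x`, `y` are multiplied by constants or interchanged
  up to constants;
* the triangular automorphisms: `x ↦ l x`, `z ↦ m z + q(x)` (then the image of `y` is determined by the
  equation; e.g. `x ↦ x`, `z ↦ z + x q(x)`, `y ↦ P(z + x q(x)) / x` with `P(z) = x y`).

By a theorem of Makar-Limanov (1990) this is the group of all automorphisms of the surface over `ℂ`
(this theorem is not used and not proved here).

**Theorem.** For every field `K`, of any characteristic, and every polynomial `P` over `K` of degree
at least three the group `surfaceGroup P` is in `C`.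

Outline of the proof. The coordinate ring embeds in `K((x))[z]`. The degrees in `z` of the images of
`x` and `y` under an automorphism `g` give level functions on the cosets `g A` and `g B` of the groups
`A`, `B` of the linear and the triangular automorphisms; since `deg P ≥ 3`, each vertex of the graph of
the cosets, except the vertex `B`, has exactly one lower neighbour, so the graph is a tree. An element
of `A ∩ B` multiplies `x` by a constant `l`, `y` by `m ^ deg P / l` and maps `z` to `m z + n`. If it
stays in `A ∩ B` after a turn at a vertex `B`, then `m = l ^ j` for some `j ≥ 1`; a turn at a vertex `A`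
replaces `l` by `m ^ deg P / l`; so a second turn at a vertex `B` makes `l`, and also `m`, a root of unity,
while `n` satisfies the equation `P(n) = m ^ deg P * P(0)`. Hence the action is acylindrical, with finite
stabilizers of bounded order of the paths of length five, for the automorphisms which are defined over
a finitely generated subring, because such a ring contains only finitely many roots of unity. Both `A`
and `B` are solvable, and every finitely generated subgroup is defined over a finitely generated ring.
-/

set_option autoImplicit false

namespace Pool.Agent.Results.MP_5d3e93_al.DanielewskiSurfaces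

open Pool.Agent.Y110.FJ (ClosedE)
open Pool.Agent.N509.TX (AcylF)

/-- the equation `x y - P(z)` -/
noncomputable def equation {K : Type} [Field K] (P : Polynomial K) : MvPolynomial (Fin 3) K :=
  MvPolynomial.X 0 * MvPolynomial.X 1 - Polynomial.aeval (MvPolynomial.X 2) P

/-- the coordinate ring `K[x, y, z] / (x y - P(z))` of the Danielewski surface -/
def Surface {K : Type} [Field K] (P : Polynomial K) : Type :=
  MvPolynomial (Fin 3) K ⧸ Ideal.span {equation P}

section

variable {K : Type} [Field K] {P : Polynomial K}

/-- the ring structure of the quotient -/
noncomputable instance : CommRing (Surface P) :=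
  inferInstanceAs (CommRing (MvPolynomial (Fin 3) K ⧸ Ideal.span {equation P}))

/-- the `K`-algebra structure of the quotient -/
noncomputable instance : Algebra K (Surface P) :=
  inferInstanceAs (Algebra K (MvPolynomial (Fin 3) K ⧸ Ideal.span {equation P}))

/-- the coordinate functions `x = coord 0`, `y = coord 1`, `z = coord 2` -/
noncomputable def coord (i : Fin 3) : Surface P :=
  Ideal.Quotient.mk (Ideal.span {equation P}) (MvPolynomial.X i)

/-- the group of the automorphisms of the coordinate ring -/
abbrev AutSurface {K : Type} [Field K] (P : Polynomial K) : Type := Surface P ≃ₐ[K] Surface P

/-- the automorphism `g` is linear: `z ↦ m z + n`, and `x ↦ l x`, `y ↦ b y` or `x ↦ l y`, `y ↦ b x` -/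
def IsLinear (g : AutSurface P) : Prop :=
  ∃ (l b m : Kˣ) (n : K), g (coord 2) = (m : K) • coord 2 + algebraMap K _ n ∧
    ((g (coord 0) = (l : K) • coord 0 ∧ g (coord 1) = (b : K) • coord 1) ∨
      (g (coord 0) = (l : K) • coord 1 ∧ g (coord 1) = (b : K) • coord 0))

/-- the automorphism `g` is triangular: `x ↦ l x`, `z ↦ m z + q(x)` -/
def IsTriangular (g : AutSurface P) : Prop :=
  ∃ (l m : Kˣ) (q : Polynomial K), g (coord 0) = (l : K) • coord 0 ∧
    g (coord 2) = (m : K) • coord 2 + Polynomial.aeval (coord 0) q

variable (P) in
/-- the group generated by the linear and the triangular automorphisms of the surface -/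
noncomputable def surfaceGroup : Subgroup (AutSurface P) :=
  Subgroup.closure {g | IsLinear g ∨ IsTriangular g}

/-- the definitions agree with those of the library -/
theorem surfaceGroup_eq : surfaceGroup P = (U74.DS.aG P ⊔ U74.DS.bG P : Subgroup (U74.DS.Au P)) := by
  apply le_antisymm
  · rw [surfaceGroup, Subgroup.closure_le]
    rintro g (hg | hg)
    · exact Subgroup.mem_sup_left (S := U74.DS.aG P) (T := U74.DS.bG P) hg
    · exact Subgroup.mem_sup_right (S := U74.DS.aG P) (T := U74.DS.bG P) hg
  · refine sup_le (a := U74.DS.aG P) (b := U74.DS.bG P) ?_ ?_
    · intro g hg
      exact Subgroup.subset_closure (Or.inl hg)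
    · intro g hg
      exact Subgroup.subset_closure (Or.inr hg)

end

/-- Let `C` be a class of groups with the closure properties `ClosedE C` and `AcylF C` which contains
the solvable groups. For every field `K` and every polynomial `P` over `K` of degree at least three the
group of automorphisms of the surface `x y = P(z)` generated by the linear and the triangular
automorphisms is in `C`. -/
theorem result (C : ∀ (G : Type) [Group G], Prop) (hC : ClosedE C) (hA : AcylF C)
    (hS : ∀ (G : Type) [Group G], Group.IsSolvable G → C G)
    (K : Type) [Field K] (P : Polynomial K) (hP : 3 ≤ P.natDegree) : C ↥(surfaceGroup P) := by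
  rw [surfaceGroup_eq]
  exact U74.DS.main hC hA hS hP

end Pool.Agent.Results.MP_5d3e93_al.DanielewskiSurfaces
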