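import Pool.Agent.U709.HiP
import Pool.Agent.U709.HiV

/-!
# Hierarchies of linear groups and of residually torsion-free groups over subgroups of finite Hirsch length

`C` is any class of groups with the closure properties `ClosedE C`, all of which are known for the
class of the groups that satisfy the K-theoretic Farrell-Jones conjecture with coefficients in additive
categories and finite wreath products. This class also contains the groups `GL_n(ℚ)` and `GL_n(F_p(t))`.

It is not known whether a group which acts on a tree satisfies the conjecture if the stabilizers of the
vertices do, not even for infinite cyclic or free abelian edge groups. `Hier C E` is the class of the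
groups with a hierarchy over `E`: the smallest class which contains `C` and all groups acting on a tree such
that the stabilizers of the vertices are in the class and those of the edges are in `E`. The edge groups
here are the groups of finite Hirsch length (`FinHirsch`: the smallest class of groups which is closed under
extensions, contains the periodic groups and the groups in which any two elements of infinite order have a
common power of infinite order), for example solvable groups with a finite series with factors in `ℚ` or
periodic ones.

(1) **Linear groups in characteristic zero.** Let `C` contain the groups `GL_n(ℚ)`. Every subgroup of
`GL_n(K)`, `K` a field of characteristic zero, with a hierarchy over groups of finite Hirsch length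
is in `C`.

(2) **Linear groups in positive characteristic.** Let `C` contain the groups `GL_n(F_p(t))`. Every subgroup
of `GL_n(K)`, `K` a field of characteristic `p`, with a hierarchy over groups of finite Hirsch length whose
periodic subgroups are finite (for example virtually polycyclic groups, see (6)) is in `C`.

(3) **Residually torsion-free groups.** If `G` has a hierarchy over groups of finite Hirsch length and a
subgroup of finite index which is residually a torsion-free group in `C` (for instance residually torsion-free
nilpotent, if `C` contains the solvable groups; or fully residually `Γ` for one torsion-free group `Γ` in
`C`) then `G` is in `C`.

(4), (5) **The general criteria.** It suffices that for every `x` of infinite order there is a homomorphism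
from `G` to a group in `C` for which the image of `x` has infinite order, and that every periodic subgroup
embeds by such a homomorphism (or, if the periodic subgroups of the edge groups are finite, that `G` is
residually in `C`).

(6) Virtually polycyclic groups have finite Hirsch length, and their periodic subgroups are finite.

Outline of the proof. By the theorem `N509.TK.edges` of the starting library it is enough to find, for each edge
group `E`, a homomorphism from `G` to a group in `C` which is injective on `E`. The traces on `E` of the kernels of
homomorphisms to groups in `C` are closed under finite intersections, and a descending chain of normal
subgroups of a group of finite Hirsch length has only finitely many steps which are not periodic. So some kernel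
meets `E` in a periodic group, which can be removed. For linear groups the homomorphisms are
specializations. In characteristic zero Noether normalization gives specializations to number fields of
bounded degree, where torsion has bounded exponent, so that elements of infinite order survive; and the kernels
are torsion-free. In characteristic `p` an element of infinite order has a transcendental eigenvalue `λ`, and one
specializes to a finite extension of `F_p(λ)`.
-/

set_option autoImplicit false

namespace Pool.Agent.Results.MP_5d3e93_al.LinearHierarchies

open Pool.Agent.Y110.FJ (ClosedE)
open Pool.Agent.U709.Hi

/-- (1) linear groups in characteristic zero -/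
def LinearZero (C : ∀ (G : Type) [Group G], Prop) : Prop :=
  (∀ n : ℕ, C (GL (Fin n) ℚ)) → ∀ (K : Type) [Field K] [CharZero K] (n : ℕ)
    (G : Subgroup (GL (Fin n) K)), Hier C FinHirsch G → C G

/-- (2) linear groups in positive characteristic -/
def LinearPos (C : ∀ (G : Type) [Group G], Prop) : Prop :=
  ∀ (p : ℕ) [Fact p.Prime], (∀ n : ℕ, C (GL (Fin n) (RatFunc (ZMod p)))) →
    ∀ (K : Type) [Field K] [CharP K p] (n : ℕ) (G : Subgroup (GL (Fin n) K)),
      Hier C FinHirschPF G → C G

/-- (3) virtually residually torsion-free groups -/
def TorsionFree (C : ∀ (G : Type) [Group G], Prop) : Prop :=
  ∀ (G : Type) [Group G] (G0 : Subgroup G), G0.FiniteIndex → TFResidual C G0 →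
    Hier C FinHirsch G → C G

/-- (4) the criterion with periodic subgroups -/
def Criterion (C : ∀ (G : Type) [Group G], Prop) : Prop :=
  ∀ (G : Type) [Group G], InfVisible C G → PerVisible C G → Hier C FinHirsch G → C G

/-- (5) the criterion for residual groups -/
def ResidualCriterion (C : ∀ (G : Type) [Group G], Prop) : Prop :=
  ∀ (G : Type) [Group G], InfVisible C G → Residual C G → Hier C FinHirschPF G → C G

/-- (6) virtually polycyclic groups -/
def Polycyclic : Prop := ∀ (E : Type) [Group E], VirtPolycyclic E → FinHirschPF E

theorem result (C : ∀ (G : Type) [Group G], Prop) (hC : ClosedE C) :
    LinearZero C ∧ LinearPos C ∧ TorsionFree C ∧ Criterion C ∧ ResidualCriterion C ∧ Polycyclic := by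
  refine ⟨?_, ?_, ?_, ?_, ?_, ?_⟩
  · intro hGL K _ _ n G hG
    exact hier_linear hC hGL hG G.subtype G.subtype_injective
  · intro p _ hGL K _ _ n G hG
    exact hier_linear_p hC hGL hG G.subtype G.subtype_injective
  · intro G _ G0 _ h0 hG
    have h1 := virt_visible hC G0 h0
    exact hier_per hC hG h1.1 h1.2
  · intro G _ h1 h2 hG
    exact hier_per hC hG h1 h2
  · intro G _ h1 h2 hG
    exact hier_res hC hG h1 h2
  · intro E _ hE
    exact virtPoly hE

end Pool.Agent.Results.MP_5d3e93_al.LinearHierarchies
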